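import Pool.Graph.R_pool_sql_team_seeded_f72693b1.W492.KC.Defs
import Pool.Agent.H939.PF.Defs
import Pool.Agent.H939.PG.Defs

/-!
# Chow motives and geometric motives over all the fields of one characteristic
-/

open CategoryTheory Limits MonoidalCategory Triangulated Pretriangulated

universe u v₁ u₁ v₂ u₂

namespace Pool.Agent.H939.PK

open Pool.Agent.W492

/-- A rigid tensor triangulated category `T` (constructible motives over a field, with rational
coefficients) with a homological functor `H : T ⥤ 𝒜` to an abelian category (the cohomology in
degree zero), the classes `W k` of the objects of `𝒜` of weights `≥ k` and a class of objects of `T`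
(the Chow motives), with the formal properties listed in `KC.Setup`. -/
structure Motives where
  /-- the category of motives -/
  T : Type u₁
  [catT : Category.{v₁} T]
  [zeroT : HasZeroObject T]
  [shiftT : HasShift T ℤ]
  [preT : Preadditive T]
  [addT : ∀ n : ℤ, (shiftFunctor T n).Additive]
  [pretriT : Pretriangulated T]
  [triT : IsTriangulated T]
  [idemT : IsIdempotentComplete T]
  [monT : MonoidalCategory T]
  [symT : SymmetricCategory T]
  [rigidT : RightRigidCategory T]
  [monPreT : MonoidalPreadditive T]
  [tensorShift : ∀ X : T, (tensorLeft X).CommShift ℤ]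
  [tensorTri : ∀ X : T, (tensorLeft X).IsTriangulated]
  [linT : Linear ℚ T]
  [monLinT : MonoidalLinear ℚ T]
  /-- the target of the cohomology functor -/
  𝒜 : Type u₂
  [cat𝒜 : Category.{v₂} 𝒜]
  [ab𝒜 : Abelian 𝒜]
  /-- the cohomology in degree zero -/
  H : T ⥤ 𝒜
  [homH : H.IsHomological]
  /-- the objects with weights `≥ k` -/
  W : ℤ → ObjectProperty 𝒜
  /-- the Chow motives -/
  Chow : ObjectProperty T
  setup : KC.Setup H W Chow ℚ

attribute [instance] Motives.catT Motives.zeroT Motives.shiftT Motives.preT Motives.addT
  Motives.pretriT Motives.triT Motives.idemT Motives.monT Motives.symT Motives.rigidT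
  Motives.monPreT Motives.tensorShift Motives.tensorTri Motives.linT Motives.monLinT
  Motives.cat𝒜 Motives.ab𝒜 Motives.homH

namespace Motives

variable (M : Motives.{v₁, u₁, v₂, u₂})

/-- `A` has no cohomology. -/
def Acyclic (A : M.T) : Prop := KC.Acyclic M.H A

/-- `P` is a parity operator of `A`: it is the identity on the cohomology in even degrees and minus
the identity on the cohomology in odd degrees. -/
def Parity {A : M.T} (P : A ⟶ A) : Prop := KC.Parity M.H P

/-- Kimura's conjecture: every Chow motive is the sum of an evenly and an oddly finite dimensional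
Chow motive. -/
def Kimura : Prop := KC.Kimura M.Chow

/-- The standard conjecture D: homological and numerical equivalence agree on Chow motives. -/
def StandardD : Prop := KC.HomEqNum M.H M.Chow

/-- The sign conjecture: every Chow motive has a parity operator. -/
def Sign : Prop := KC.Sign M.H M.Chow

/-- Conservativity: an object of `T` without cohomology is zero. -/
def Conservative : Prop := KC.Conservative M.H

/-- Nilpotence: the endomorphisms of Chow motives which are zero on cohomology are nilpotent. -/
def ChowNilpotence : Prop := KC.Nilp M.H M.Chow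

/-- Conservativity on Chow motives: a morphism of Chow motives which is an isomorphism on cohomology
is an isomorphism. -/
def ChowConservative : Prop := KC.ChowConservative M.H M.Chow

end Motives

/-- The morphism `1 ⟶ E ⊗ Eᘁ` given by the endomorphism `Q` of `E`. -/
def name {T : Type u₁} [Category.{v₁} T] [MonoidalCategory T] [RightRigidCategory T] {E : T}
    (Q : E ⟶ E) : 𝟙_ T ⟶ E ⊗ Eᘁ := η_ E Eᘁ ≫ (Q ▷ Eᘁ)

/-- The base change functor `P` for an extension of fields `K/k`, where `M` and `M'` are the
motives over `k` and over `K`. -/
structure BaseChange (M M' : Motives.{v₁, u₁, v₂, u₂}) where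
  /-- base change -/
  P : M.T ⥤ M'.T
  [monP : P.Monoidal]
  [addP : P.Additive]
  [faithfulP : P.Faithful]
  /-- the base change of an object without cohomology has no cohomology -/
  acyclic : ∀ A : M.T, M.Acyclic A → M'.Acyclic (P.obj A)
  /-- the base change of a parity operator is a parity operator -/
  parity : ∀ (A : M.T) (Q : A ⟶ A), M.Parity Q → M'.Parity (P.map Q)
  /-- the base change of a Chow motive is a Chow motive -/
  chow : ∀ X : M.T, M.Chow X → M'.Chow (P.obj X)
  /-- a Chow motive has a parity operator if its base change has one -/
  specialise : ∀ X : M.T, M.Chow X → (∃ Q : P.obj X ⟶ P.obj X, M'.Parity Q) →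
    ∃ Q : X ⟶ X, M.Parity Q
  /-- push-forward: the identity of an object without cohomology comes from a morphism `1 ⟶ N`, where
  `N` (the push-forward of the endomorphisms of a model of `A`) has no cohomology -/
  pushForward : ∀ A : M'.T, M'.Acyclic A →
    ∃ (N : M.T) (y : 𝟙_ M.T ⟶ N), M.Acyclic N ∧ PG.ComesFrom P (𝟙 A) y

attribute [instance] BaseChange.monP BaseChange.addP BaseChange.faithfulP

/-- Chow motives over an extension `K` of an algebraically closed field `k` have models over
smooth varieties over `k`: for a Chow motive `X` over `K` let `E` be the fibre of a model of `X` at a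
point, `N` the push-forward of the endomorphisms of the model, which is of weight `≥ 0`, and
`g : N ⟶ E ⊗ Eᘁ` the restriction to the fibre. A parity operator `Q` of `E` comes from the
cohomology of `N`, and if it comes from a morphism `1 ⟶ N`, then `X` has a parity operator. -/
def HasModels (M M' : Motives.{v₁, u₁, v₂, u₂}) : Prop :=
  ∀ X : M'.T, M'.Chow X → ∃ (E N : M.T) (g : N ⟶ E ⊗ Eᘁ), M.Chow E ∧
    PF.WeightNonneg M.Chow N ∧
    ∀ Q : E ⟶ E, M.Parity Q →
      (∃ x : M.H.obj (𝟙_ M.T) ⟶ M.H.obj N, x ≫ M.H.map g = M.H.map (name Q)) ∧
      ∀ y : 𝟙_ M.T ⟶ N, y ≫ g = name Q → ∃ Q' : X ⟶ X, M'.Parity Q'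

/-- Chow motives and constructible motives over all the fields of characteristic `p`. -/
structure FieldMotives (p : ℕ) where
  /-- motives over `k` -/
  obj : ∀ (k : Type u) [Field k] [CharP k p], Motives.{v₁, u₁, v₂, u₂}
  /-- base change along an embedding of fields -/
  map : ∀ {k K : Type u} [Field k] [CharP k p] [Field K] [CharP K p] (_ : k →+* K),
    BaseChange (obj k) (obj K)
  /-- for an algebraic extension `K/k`, every Chow motive over `K` is a direct summand of the base
  change of a Chow motive over `k` -/
  algebraic : ∀ {k K : Type u} [Field k] [CharP k p] [Field K] [CharP K p] [Algebra k K]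
    [Algebra.IsAlgebraic k K] (X : (obj K).T), (obj K).Chow X →
      ∃ E : (obj k).T, (obj k).Chow E ∧ Nonempty (Retract X ((map (algebraMap k K)).P.obj E))
  /-- if `k` is algebraically closed, Chow motives over `K` have models over varieties over `k` -/
  models : ∀ {k K : Type u} [Field k] [CharP k p] [IsAlgClosed k] [Field K] [CharP K p]
    (_ : k →+* K), HasModels (obj k) (obj K)

end Pool.Agent.H939.PK
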