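import Pool.Agent.H939.PK.Sign
import Pool.Agent.H939.PF.PrimeField
import Pool.Graph.R_pool_sql_team_seeded_f72693b1.Results.MP_868bb7_ag.ConservativityAndSign

/-!
# Kimura's conjecture and the standard conjecture D do not depend on the base field
-/

set_option linter.style.haveILetI false

open CategoryTheory Limits MonoidalCategory Triangulated Pretriangulated

universe u v₁ u₁ v₂ u₂

namespace Pool.Agent.H939.PK

open Pool.Agent.W492

/-- the equivalences over one field (library) -/
theorem Motives.tfae (M : Motives.{v₁, u₁, v₂, u₂}) : List.TFAE [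
    M.Kimura ∧ M.StandardD,
    M.Conservative ∧ M.Sign,
    M.ChowConservative ∧ M.Sign ∧ M.StandardD,
    M.ChowNilpotence ∧ M.Sign ∧ M.StandardD] :=
  Pool.Agent.Results.MP_868bb7_ag.ConservativityAndSign.result M.H M.W M.Chow M.setup

theorem Motives.iff_cons (M : Motives.{v₁, u₁, v₂, u₂}) :
    M.Kimura ∧ M.StandardD ↔ M.Conservative ∧ M.Sign := M.tfae.out 0 1

theorem Motives.iff_chow (M : Motives.{v₁, u₁, v₂, u₂}) :
    M.Kimura ∧ M.StandardD ↔ M.ChowConservative ∧ M.Sign ∧ M.StandardD := M.tfae.out 0 2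

theorem Motives.iff_nilp (M : Motives.{v₁, u₁, v₂, u₂}) :
    M.Kimura ∧ M.StandardD ↔ M.ChowNilpotence ∧ M.Sign ∧ M.StandardD := M.tfae.out 0 3

section
variable {M M' : Motives.{v₁, u₁, v₂, u₂}} (B : BaseChange M M')

include B

theorem BaseChange.conservative_up (h : M.Conservative) : M'.Conservative := by
  intro A hA
  obtain ⟨N, y, hN, ⟨c, hc⟩⟩ := B.pushForward A hA
  rw [IsZero.iff_id_eq_zero]
  have hy : y = 0 := (h N hN).eq_of_tgt _ _
  rw [hc, hy, Functor.map_zero, comp_zero, MonoidalPreadditive.zero_whiskerRight,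
    zero_comp, comp_zero]

theorem BaseChange.conservative_down (h : M'.Conservative) : M.Conservative := by
  intro A hA
  rw [IsZero.iff_id_eq_zero]
  apply B.P.map_injective
  exact (h _ (B.acyclic A hA)).eq_of_src _ _

theorem BaseChange.sign_down (h : M'.Sign) : M.Sign :=
  fun X hX => B.specialise X hX (h _ (B.chow X hX))

theorem BaseChange.kimura_down (h : M'.Kimura ∧ M'.StandardD) : M.Kimura ∧ M.StandardD := by
  have h1 := M'.iff_cons.1 h
  exact M.iff_cons.2 ⟨B.conservative_down h1.1, B.sign_down h1.2⟩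

theorem BaseChange.sign_algebraic
    (hret : ∀ X, M'.Chow X → ∃ E, M.Chow E ∧ Nonempty (Retract X (B.P.obj E)))
    (h : M.Sign) : M'.Sign := by
  intro X hX
  obtain ⟨E, hE, ⟨r⟩⟩ := hret X hX
  obtain ⟨Q, hQ⟩ := h E hE
  exact ⟨_, parity_retract r (B.parity E Q hQ)⟩

end

theorem sign_up {M M' : Motives.{v₁, u₁, v₂, u₂}} (hm : HasModels M M') (hD : M.StandardD)
    (h : M.Sign) : M'.Sign := by
  intro X hX
  obtain ⟨E, N, g, hE, hN, hQ⟩ := hm X hX
  obtain ⟨Q, hQ0⟩ := h E hE
  obtain ⟨⟨x, hx⟩, -⟩ := hQ Q hQ0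
  obtain ⟨y, hy⟩ := exists_algebraic M.setup hD hN
    (M.setup.tensor_mem _ _ hE (M.setup.dual_mem _ hE)) g (name Q) x hx
  obtain ⟨Q₁, hQ₁⟩ := exists_eq_name (y ≫ g)
  rw [hQ₁] at hy
  have h1 : M.Parity Q₁ := parity_of_name M.setup hQ0 hy
  exact (hQ Q₁ h1).2 y hQ₁

section
variable {p : ℕ} (M : FieldMotives.{u, v₁, u₁, v₂, u₂} p)
  (k K : Type u) [Field k] [CharP k p] [Field K] [CharP K p]

/-- Kimura's conjecture and D hold over all fields of characteristic `p` if they hold over one. -/
theorem kimura_of_kimura (h : (M.obj k).Kimura ∧ (M.obj k).StandardD) :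
    (M.obj K).Kimura ∧ (M.obj K).StandardD := by
  have h0 := (M.obj k).iff_cons.1 h
  have h1 : (M.obj (AlgebraicClosure k)).Kimura ∧ (M.obj (AlgebraicClosure k)).StandardD :=
    (M.obj (AlgebraicClosure k)).iff_cons.2
      ⟨(M.map (algebraMap k (AlgebraicClosure k))).conservative_up h0.1,
      (M.map (algebraMap k (AlgebraicClosure k))).sign_algebraic
        (fun X hX => M.algebraic X hX) h0.2⟩
  obtain ⟨φ⟩ := PF.exists_hom p k (AlgebraicClosure k)
  have h2 := (M.map φ).kimura_down h1
  obtain ⟨ψ⟩ := PF.exists_hom p k (AlgebraicClosure K)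
  have h3 : (M.obj (AlgebraicClosure K)).Kimura ∧ (M.obj (AlgebraicClosure K)).StandardD := by
    have h4 := (M.obj (PF.PrimeClosure k)).iff_cons.1 h2
    exact (M.obj (AlgebraicClosure K)).iff_cons.2
      ⟨(M.map ψ).conservative_up h4.1, sign_up (M.models ψ) h2.2 h4.2⟩
  exact (M.map (algebraMap K (AlgebraicClosure K))).kimura_down h3

/-- The realisation is conservative over all fields of characteristic `p` if it is so over one. -/
theorem conservative_of_conservative (h : (M.obj k).Conservative) :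
    (M.obj K).Conservative := by
  obtain ⟨φ⟩ := PF.exists_hom p k (AlgebraicClosure k)
  obtain ⟨ψ⟩ := PF.exists_hom p k (AlgebraicClosure K)
  exact (M.map (algebraMap K (AlgebraicClosure K))).conservative_down
    ((M.map ψ).conservative_up ((M.map φ).conservative_down
      ((M.map (algebraMap k (AlgebraicClosure k))).conservative_up h)))

/-- The equivalences if the sign conjecture is known over `k`. -/
theorem tfae_of_sign (hs : (M.obj k).Sign) : List.TFAE [
    (M.obj K).Kimura ∧ (M.obj K).StandardD,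
    (M.obj K).Conservative,
    (M.obj k).Conservative,
    (M.obj k).ChowConservative ∧ (M.obj k).StandardD,
    (M.obj k).ChowNilpotence ∧ (M.obj k).StandardD] := by
  tfae_have 1 → 2 := fun h => ((M.obj K).iff_cons.1 h).1
  tfae_have 2 → 3 := conservative_of_conservative M K k
  tfae_have 3 → 5 := fun h => by
    have h1 := (M.obj k).iff_nilp.1 ((M.obj k).iff_cons.2 ⟨h, hs⟩)
    exact ⟨h1.1, h1.2.2⟩
  tfae_have 5 → 4 := fun h => by
    have h1 := (M.obj k).iff_chow.1 ((M.obj k).iff_nilp.2 ⟨h.1, hs, h.2⟩)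
    exact ⟨h1.1, h1.2.2⟩
  tfae_have 4 → 1 := fun h =>
    kimura_of_kimura M k K ((M.obj k).iff_chow.2 ⟨h.1, hs, h.2⟩)
  tfae_finish

end

end Pool.Agent.H939.PK
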