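import Pool.Agent.H939.PK.Defs
import Pool.Graph.R_pool_sql_team_seeded_f72693b1.W492.KC.Quas
import Pool.Graph.R_pool_sql_team_seeded_f72693b1.W492.VN.Lift

/-!
# Algebraicity of classes in the cohomology of objects of weight `≥ 0`
-/

set_option linter.unusedSectionVars false
set_option linter.style.haveILetI false

open CategoryTheory Limits MonoidalCategory Triangulated Pretriangulated ZeroObject

namespace Pool.Agent.H939.PK

open Pool.Agent.W492.TS Pool.Agent.W492.PC Pool.Agent.W492.KC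
open Pool.Agent.W492.MT (tpow tr)

universe v u v' u'

section
variable {T : Type u} [Category.{v} T] [HasZeroObject T] [HasShift T ℤ] [Preadditive T]
  [∀ n : ℤ, (shiftFunctor T n).Additive] [Pretriangulated T] [IsTriangulated T]
  {𝒞 : ObjectProperty T}

/-- iterated extensions of objects `C⟦m⟧`, `m ≥ 0`. -/
theorem exists_filt_of_isExt (hr : Ret 𝒞) (n : ℕ) {N : T}
    (hN : PF.IsExt (fun Y => ∃ (C : T) (m : ℕ), 𝒞 C ∧ Nonempty (Y ≅ C⟦(m : ℤ)⟧)) n N) :
    ∃ l : List ℤ, (∀ m ∈ l, 0 ≤ m) ∧ Filt (Deg 𝒞) l N := by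
  induction n generalizing N with
  | zero => exact ⟨[], by simp, hN⟩
  | succ n ih =>
    obtain ⟨X, M', f, g, h, hT, ⟨C, m, hC, ⟨e⟩⟩, hM'⟩ := hN
    obtain ⟨l, hl, hM⟩ := ih hM'
    refine ⟨(m : ℤ) :: l, ?_, X, M', f, g, h, hT, ?_, hM⟩
    · intro x hx
      rcases List.mem_cons.1 hx with rfl | hx
      · omega
      · exact hl x hx
    · exact hr _ _ hC ⟨Retract.ofIso ((shiftFunctor T (-(m : ℤ))).mapIso e ≪≫
        shiftIso C m (-m) 0 (by omega) ≪≫ (shiftFunctorZero T ℤ).app C)⟩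

end

section
variable {T : Type u} [Category.{v} T] [HasZeroObject T] [HasShift T ℤ] [Preadditive T]
  [∀ n : ℤ, (shiftFunctor T n).Additive] [Pretriangulated T] [IsTriangulated T]
  [MonoidalCategory T] [SymmetricCategory T] [RightRigidCategory T] [MonoidalPreadditive T]
  {𝒜 : Type u'} [Category.{v'} 𝒜] [Abelian 𝒜] {H : T ⥤ 𝒜} [H.IsHomological]
  {W : ℤ → ObjectProperty 𝒜} {𝒞 : ObjectProperty T}
  {F : Type} [Field F] [CharZero F] [Linear F T] [MonoidalLinear F T]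

theorem map_shift_zero {X Y : T} (f : X ⟶ Y) :
    H.map f = H.map ((shiftFunctorZero T ℤ).inv.app X) ≫ H.map (f⟦(0 : ℤ)⟧') ≫
      H.map ((shiftFunctorZero T ℤ).hom.app Y) := by
  rw [← H.map_comp, ← H.map_comp]
  congr 1
  have h1 := (shiftFunctorZero T ℤ).hom.naturality f
  rw [h1]
  simp

theorem map_eq_zero {X Y : T} {f : X ⟶ Y} (hf : HomTriv H f) : H.map f = 0 := by
  rw [map_shift_zero, hf 0, zero_comp, comp_zero]

theorem zero_mem (hS : Setup H W 𝒞 F) : 𝒞 (0 : T) :=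
  hS.retract_mem _ _ hS.one_mem ⟨⟨0, 0, (isZero_zero T).eq_of_src _ _⟩⟩

/-- morphisms from the cohomology of the unit to an object of weights `> 0` are zero. -/
theorem unit_pure (hS : Setup H W 𝒞 F) {A : 𝒜} (hA : W 1 A) (x : H.obj (𝟙_ T) ⟶ A) : x = 0 := by
  let e : H.obj ((𝟙_ T)⟦(0 : ℤ)⟧) ≅ H.obj (𝟙_ T) := H.mapIso ((shiftFunctorZero T ℤ).app (𝟙_ T))
  rw [← cancel_epi e.hom, comp_zero]
  exact hS.pure _ hS.one_mem 0 A hA _

/-- the lowest step of a weight filtration -/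
theorem exists_lowest (hS : Setup H W 𝒞 F) {l : List ℤ} (hl : ∀ m ∈ l, 0 ≤ m) {N : T}
    (hN : Filt (Deg 𝒞) l N) :
    ∃ (C N' : T) (i : C ⟶ N) (j : N ⟶ N') (h : N' ⟶ C⟦(1 : ℤ)⟧), 𝒞 C ∧
      Triangle.mk i j h ∈ distTriang T ∧ W 1 (H.obj N') := by
  obtain ⟨l', h1, h2, h3⟩ := exists_strict hS.orth hS.retract_mem hS.sum_mem
    (List.pairwise_insertionSort _ _) (Filt.sort (swap_deg hS.orth) l hN)
  have h4 : ∀ m ∈ l', 0 ≤ m := fun m hm => hl m
    ((List.mem_insertionSort (· ≤ ·)).1 (h2 hm))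
  have hw : ∀ {l : List ℤ} {M : T}, (∀ m ∈ l, 1 ≤ m) → Filt (Deg 𝒞) l M → W 1 (H.obj M) := by
    intro l M hl hM
    have h5 := filt_weight hS.serre hS.anti hS.weight hl hM 0
    rw [zero_add] at h5
    haveI := hS.serre 1
    exact (W 1).prop_of_iso (H.mapIso ((shiftFunctorZero T ℤ).app M)) h5
  by_cases hpos : ∀ m ∈ l', 1 ≤ m
  · refine ⟨0, N, 0, 𝟙 N, 0, zero_mem hS, contractible_distinguished₁ N, hw hpos h3⟩
  · match l', h1, h3, h4, hpos with
    | [], _, _, _, hpos => exact absurd (by simp) hpos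
    | m :: l', h1, h3, h4, hpos =>
      rw [List.pairwise_cons] at h1
      have hm : m = 0 := by
        by_contra hm
        have hm' := h4 m (by simp)
        apply hpos
        intro x hx
        rcases List.mem_cons.1 hx with rfl | hx
        · omega
        · have := h1.1 x hx
          omega
      subst hm
      obtain ⟨C, M', a, b, h, hT, hC, hM'⟩ := h3
      refine ⟨C, M', a, b, h, ?_, hT, hw (fun x hx => by have := h1.1 x hx; omega) hM'⟩
      exact hS.retract_mem _ _ hC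
        ⟨Retract.ofIso ((shiftFunctorZero' T (-0 : ℤ) (by simp)).app C).symm⟩

/-- Let `N` be of weight `≥ 0` and `Y` a Chow motive. A class of `N` whose image in `Y` is algebraic
may be replaced by an algebraic class. -/
theorem exists_algebraic (hS : Setup H W 𝒞 F) (hD : HomEqNum H 𝒞) {N Y : T}
    (hN : PF.WeightNonneg 𝒞 N) (hY : 𝒞 Y) (g : N ⟶ Y) (q : 𝟙_ T ⟶ Y)
    (x : H.obj (𝟙_ T) ⟶ H.obj N) (hx : x ≫ H.map g = H.map q) :
    ∃ y : 𝟙_ T ⟶ N, H.map (y ≫ g) = H.map q := by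
  obtain ⟨N₀, n, ⟨r⟩, hN₀⟩ := hN
  obtain ⟨l, hl, hF⟩ := exists_filt_of_isExt hS.retract_mem n hN₀
  obtain ⟨C, N', i, j, h, hC, hT, hW⟩ := exists_lowest hS hl hF
  obtain ⟨s, hs⟩ := hS.exists_quasi' hD hC hY (i ≫ r.r ≫ g)
  have hs0 : H.map ((i ≫ r.r ≫ g) ≫ s ≫ (i ≫ r.r ≫ g)) = H.map (i ≫ r.r ≫ g) := by
    have h2 : H.map ((i ≫ r.r ≫ g) ≫ s ≫ (i ≫ r.r ≫ g) - (i ≫ r.r ≫ g)) = 0 := map_eq_zero hs
    rwa [H.map_sub, sub_eq_zero] at h2
  have hx0 : (x ≫ H.map r.i) ≫ H.map j = 0 := unit_pure hS hW _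
  have key : (x ≫ H.map r.i) ≫ (H.map (r.r ≫ g) ≫ H.map (s ≫ i ≫ r.r ≫ g) -
      H.map (r.r ≫ g)) = 0 := by
    have hex := H.map_distinguished_exact _ hT
    refine Pool.Agent.W492.VN.comp_zero_of_exact hex (x ≫ H.map r.i) hx0 _ ?_
    change H.map i ≫ _ = 0
    rw [Preadditive.comp_sub, sub_eq_zero, ← H.map_comp, ← H.map_comp, ← H.map_comp]
    simpa only [Category.assoc] using hs0
  refine ⟨q ≫ s ≫ i ≫ r.r, ?_⟩
  have h3 : (x ≫ H.map r.i) ≫ H.map (r.r ≫ g) = H.map q := by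
    rw [Category.assoc, ← H.map_comp, ← Category.assoc r.i, r.retract, Category.id_comp, hx]
  rw [Preadditive.comp_sub, sub_eq_zero, ← Category.assoc (x ≫ H.map r.i), h3, ← H.map_comp] at key
  simpa only [Category.assoc] using key

/-- a morphism from the unit which is zero in degree zero is zero on cohomology. -/
theorem homTriv_of_unit (hS : Setup H W 𝒞 F) {Y : T} {f : 𝟙_ T ⟶ Y} (hf : H.map f = 0) :
    HomTriv H f := by
  intro n
  by_cases hn : n = 0
  · subst hn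
    have h1 := map_shift_zero (H := H) f
    rw [hf] at h1
    rw [← cancel_epi (H.map ((shiftFunctorZero T ℤ).inv.app (𝟙_ T))),
      ← cancel_mono (H.map ((shiftFunctorZero T ℤ).hom.app Y)), Category.assoc, ← h1,
      comp_zero, zero_comp]
  · exact (hS.unit_deg n hn).eq_of_src _ _

theorem exists_eq_name {E : T} (x : 𝟙_ T ⟶ E ⊗ Eᘁ) : ∃ Q : E ⟶ E, x = name Q := by
  obtain ⟨Q, hQ⟩ := exists_hom_of_hom (x ≫ (β_ E Eᘁ).hom)
  refine ⟨Q, ?_⟩
  rw [← cancel_mono (β_ E Eᘁ).hom, hQ, name, Category.assoc]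

theorem name_recover {E : T} (Q : E ⟶ E) :
    (λ_ E).inv ≫ (name Q ▷ E) ≫ (α_ E Eᘁ E).hom ≫ (E ◁ ε_ E Eᘁ) ≫ (ρ_ E).hom = Q := by
  have h2 : (η_ E Eᘁ ▷ E) ≫ (α_ E Eᘁ E).hom ≫ (E ◁ ε_ E Eᘁ) = (λ_ E).hom ≫ (ρ_ E).inv :=
    ExactPairing.evaluation_coevaluation (X := E) (Y := Eᘁ)
  rw [name, comp_whiskerRight, Category.assoc, associator_naturality_left_assoc,
    ← whisker_exchange_assoc]
  slice_lhs 2 4 => rw [h2]
  simp

/-- an endomorphism with the same action on the cohomology as a parity operator is one. -/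
theorem parity_of_homTriv {X : T} {Q Q' : X ⟶ X} (hQ : Parity H Q) (h : HomTriv H (Q' - Q)) :
    Parity H Q' := by
  have h1 : ∀ n : ℤ, H.map (Q'⟦n⟧') = H.map (Q⟦n⟧') := by
    intro n
    have h2 := h n
    rwa [Functor.map_sub, Functor.map_sub, sub_eq_zero] at h2
  exact ⟨fun n => (h1 _).trans (hQ.1 n), fun n => (h1 _).trans (hQ.2 n)⟩

theorem parity_of_name (hS : Setup H W 𝒞 F) {E : T} {Q Q' : E ⟶ E} (hQ : Parity H Q)
    (h : H.map (name Q') = H.map (name Q)) : Parity H Q' := by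
  have h1 : H.map (name Q' - name Q) = 0 := by rw [H.map_sub, h, sub_self]
  have h2 : HomTriv H (name Q' - name Q) := homTriv_of_unit hS h1
  refine parity_of_homTriv hQ ?_
  have h3 : Q' - Q = (λ_ E).inv ≫ ((name Q' - name Q) ▷ E) ≫ (α_ E Eᘁ E).hom ≫
      (E ◁ ε_ E Eᘁ) ≫ (ρ_ E).hom := by
    have e1 : (name Q' - name Q) ▷ E = name Q' ▷ E - name Q ▷ E := (tensorRight E).map_sub
    conv_lhs => rw [← name_recover Q', ← name_recover Q]
    rw [e1, Preadditive.sub_comp, Preadditive.comp_sub]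
  rw [h3]
  exact ((hS.homTriv_whiskerRight h2 E).comp_left _).comp_right _

/-- parity operators of direct summands. -/
theorem parity_retract {X Y : T} (r : Retract X Y) {Q : Y ⟶ Y} (hQ : Parity H Q) :
    Parity H (r.i ≫ Q ≫ r.r) := by
  refine ⟨fun n => ?_, fun n => ?_⟩
  · simp only [Functor.map_comp]
    rw [hQ.1 n, Category.id_comp, ← H.map_comp, ← Functor.map_comp, r.retract,
      CategoryTheory.Functor.map_id, CategoryTheory.Functor.map_id]
  · simp only [Functor.map_comp]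
    rw [hQ.2 n, Preadditive.neg_comp, Preadditive.comp_neg, Category.id_comp, ← H.map_comp,
      ← Functor.map_comp, r.retract, CategoryTheory.Functor.map_id,
      CategoryTheory.Functor.map_id]

end

end Pool.Agent.H939.PK
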